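import Pool.Agent.Work.MP_9de0a1_al.X.XFinal

/-!
# Almost all finite groups with restricted composition factors are 2-groups
-/

open Filter Topology

namespace Pool.Agent.Results.MP_9de0a1_al.CompositionFactors

/-- `CF S G`: every composition factor of `G` (every simple quotient `K ⧸ H` of a subnormal subgroup
`K` of `G`) is abelian or has the property `S`. -/
def CF (S : ∀ (T : Type) [Group T], Prop) (G : Type) [Group G] : Prop :=
  ∀ K : Subgroup G, K.IsSubnormal → ∀ (H : Subgroup K) [H.Normal], IsSimpleGroup (K ⧸ H) →
    (∀ a b : K ⧸ H, a * b = b * a) ∨ S (K ⧸ H)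

/-- The number of groups of order `m` with the property `P`, up to isomorphism (isomorphism classes
of group structures on `Fin m`). -/
noncomputable def numGroups (P : ∀ (T : Type) [Group T], Prop) (m : ℕ) : ℕ :=
  Nat.card (Quot (fun G1 G2 : {G : Group (Fin m) // @P (Fin m) G} =>
    Nonempty (@MulEquiv (Fin m) (Fin m)
      (@Semigroup.toMul _ (@Monoid.toSemigroup _ (@DivInvMonoid.toMonoid _ (@Group.toDivInvMonoid _ G1.1))))
      (@Semigroup.toMul _ (@Monoid.toSemigroup _ (@DivInvMonoid.toMonoid _ (@Group.toDivInvMonoid _ G2.1)))))))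

/-- Let `S` be an isomorphism-invariant property of groups and `C` a natural number such that, for
every `N`, at most `N ^ (C log₂ N)` nonabelian simple groups of order `N` have the property `S`, and
every finite nonabelian simple group `T` with the property `S` has at most `|T| ^ C` automorphisms.
Then among the groups of order at most `n` all of whose nonabelian composition factors have the
property `S`, the proportion of those whose order is a power of two tends to `1`. Here `c m` is the
number of all groups of order `m`. -/
theorem result :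
    ∀ (S : ∀ (T : Type) [Group T], Prop) (C : ℕ),
      (∀ (T T' : Type) [Group T] [Group T'], Nonempty (T ≃* T') → S T → S T') →
      (∀ N : ℕ, numGroups (fun T _ => IsSimpleGroup T ∧ (¬ ∀ a b : T, a * b = b * a) ∧ S T) N ≤
        N ^ (C * Nat.log 2 N)) →
      (∀ (T : Type) [Group T], Finite T → IsSimpleGroup T → (¬ ∀ a b : T, a * b = b * a) → S T →
        Nat.card (MulAut T) ≤ Nat.card T ^ C) →
      ∀ c : ℕ → ℕ,
      (∀ m : ℕ, c m = Nat.card (Quot (fun G1 G2 : Group (Fin m) =>
        Nonempty (@MulEquiv (Fin m) (Fin m)
          (@Semigroup.toMul _ (@Monoid.toSemigroup _ (@DivInvMonoid.toMonoid _ (@Group.toDivInvMonoid _ G1))))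
          (@Semigroup.toMul _ (@Monoid.toSemigroup _ (@DivInvMonoid.toMonoid _ (@Group.toDivInvMonoid _ G2)))))))) →
      Tendsto (fun n : ℕ =>
        (∑ k ∈ (Finset.range (n + 1)).filter (fun k => 2 ^ k ≤ n), (c (2 ^ k) : ℝ)) /
        (∑ m ∈ Finset.Icc 1 n, (numGroups (CF S) m : ℝ))) atTop (𝓝 1) := by
  intro S C h1 h2 h3 c hc
  have h4 : c = EnumG.gc := funext fun m => hc m
  subst h4
  exact EnumG.mainG S C ⟨h1, h2, h3⟩

end Pool.Agent.Results.MP_9de0a1_al.CompositionFactors
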