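import Pool.Agent.Work.MP_9de0a1_al.Ratio

/-!
# Growth of the number of groups of order `2^k`
-/

namespace Pool.Agent.Results.MP_9de0a1_al.GrowthRatio

/-- `c m` is the number of groups of order `m` up to isomorphism. For every `η > 0` and all large `k`,
`c (2^(k+1)) ≥ 2^((2/9 - η) k^2) c (2^k)`. -/
theorem result :
    ∀ c : ℕ → ℕ,
      (∀ m : ℕ, c m = Nat.card (Quot (fun G1 G2 : Group (Fin m) =>
        Nonempty (@MulEquiv (Fin m) (Fin m)
          (@Semigroup.toMul _ (@Monoid.toSemigroup _ (@DivInvMonoid.toMonoid _ (@Group.toDivInvMonoid _ G1))))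
          (@Semigroup.toMul _ (@Monoid.toSemigroup _ (@DivInvMonoid.toMonoid _ (@Group.toDivInvMonoid _ G2)))))))) →
      ∀ η : ℝ, 0 < η → ∃ k0 : ℕ, ∀ k : ℕ, k0 ≤ k →
        (2 : ℝ) ^ ((2 / 9 - η) * (k : ℝ) ^ 2) * (c (2 ^ k) : ℝ) ≤ (c (2 ^ (k + 1)) : ℝ) := by
  intro c hc η hη
  have h1 : c = EnumG.gc := funext fun m => hc m
  subst h1
  exact EnumG.ratio η hη

end Pool.Agent.Results.MP_9de0a1_al.GrowthRatio
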